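import Mathlib
import Pool.Agent.Work.MP_6eec66_an.Lower
import Pool.Agent.Work.MP_6eec66_an.Frame

set_option autoImplicit false

namespace Pool.Agent.Results.MP_6eec66_an.HilbertSubspace

open Finset

/-! ## Definitions of the problem file -/

/-- The family of finite subsets of ℕ is hereditary: if G ⊆ F ∈ 𝓕 then G ∈ 𝓕. -/
def Hereditary (𝓕 : Set (Finset ℕ)) : Prop :=
  ∀ F ∈ 𝓕, ∀ G : Finset ℕ, G ⊆ F → G ∈ 𝓕

/-- The family covers ℕ: every singleton belongs to 𝓕. -/
def Covers (𝓕 : Set (Finset ℕ)) : Prop := ∀ n : ℕ, ({n} : Finset ℕ) ∈ 𝓕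

/-- The indicator function of a finite subset of ℕ, a point of the Cantor space (ℕ → Bool, with
the product of the discrete topologies). -/
def indicator (F : Finset ℕ) : ℕ → Bool := fun n => decide (n ∈ F)

/-- The family is compact: its members, identified with their indicator functions, form a closed
(equivalently compact) subset of the Cantor space. -/
def CompactFamily (𝓕 : Set (Finset ℕ)) : Prop :=
  IsClosed (indicator '' 𝓕) ∧ IsCompact (indicator '' 𝓕)

/-- `(E, J)` is the combinatorial Banach space X_𝓕, that is the completion of c₀₀ (the finitely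
supported real sequences, `ℕ →₀ ℝ`) for the norm ‖x‖_𝓕 = sup over F ∈ 𝓕 of ∑ i ∈ F, |x i|:
`E` is a Banach space and `J : c₀₀ → E` is linear with dense range and ‖J x‖ = ‖x‖_𝓕 for all `x`
(the least upper bound is written out, so that no convention on suprema is used). Any two such
pairs are isometrically isomorphic. -/
structure IsCombinatorialSpace (𝓕 : Set (Finset ℕ)) (E : Type*) [NormedAddCommGroup E]
    [NormedSpace ℝ E] (J : (ℕ →₀ ℝ) →ₗ[ℝ] E) : Prop where
  /-- `E` is complete -/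
  complete : CompleteSpace E
  /-- the image of c₀₀ is dense in `E` -/
  denseRange : DenseRange J
  /-- the norm of `J x` is ‖x‖_𝓕 -/
  norm_isLUB : ∀ x : ℕ →₀ ℝ, IsLUB {s : ℝ | ∃ F ∈ 𝓕, s = ∑ i ∈ F, |x i|} ‖J x‖

/-- The subspace `W` of `Z` is isomorphic (linearly homeomorphic) to the real space ℓ₁. -/
def IsoL1 {Z : Type*} [NormedAddCommGroup Z] [NormedSpace ℝ Z] (W : Submodule ℝ Z) : Prop :=
  Nonempty (W ≃L[ℝ] lp (fun _ : ℕ => ℝ) 1)

/-- The subspace `W` of `Z` is isomorphic (linearly homeomorphic) to the real space ℓ₂. -/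
def IsoL2 {Z : Type*} [NormedAddCommGroup Z] [NormedSpace ℝ Z] (W : Submodule ℝ Z) : Prop :=
  Nonempty (W ≃L[ℝ] lp (fun _ : ℕ => ℝ) 2)

/-- The subspace `Y` of `Z` contains a subspace isomorphic to ℓ₁. -/
def ContainsL1 {Z : Type*} [NormedAddCommGroup Z] [NormedSpace ℝ Z] (Y : Submodule ℝ Z) : Prop :=
  ∃ W : Submodule ℝ Z, W ≤ Y ∧ IsoL1 W

/-- `Z` is ℓ₁-saturated: every closed infinite-dimensional subspace of `Z` contains a subspace
isomorphic to ℓ₁. -/
def L1Saturated (Z : Type*) [NormedAddCommGroup Z] [NormedSpace ℝ Z] : Prop :=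
  ∀ Y : Submodule ℝ Z, IsClosed (Y : Set Z) → ¬ FiniteDimensional ℝ Y → ContainsL1 Y

/-- The sequence `f` in `Z` is equivalent to the unit vector basis of ℓ₁ (normalised so that
‖f i‖ ≤ 1 for all `i`). -/
def EquivL1Basis {Z : Type*} [NormedAddCommGroup Z] [NormedSpace ℝ Z] (f : ℕ → Z) : Prop :=
  (∀ i, ‖f i‖ ≤ 1) ∧ ∃ c : ℝ, 0 < c ∧ ∀ (n : ℕ) (a : ℕ → ℝ),
    c * ∑ i ∈ range n, |a i| ≤ ‖∑ i ∈ range n, a i • f i‖

/-- `Y` is a closed infinite-dimensional subspace of `Z` which is isomorphic to ℓ₂, contains no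
subspace isomorphic to ℓ₁ and contains no sequence equivalent to the unit vector basis of ℓ₁. -/
def IsHilbertWithoutL1 {Z : Type*} [NormedAddCommGroup Z] [NormedSpace ℝ Z]
    (Y : Submodule ℝ Z) : Prop :=
  IsClosed (Y : Set Z) ∧ ¬ FiniteDimensional ℝ Y ∧ IsoL2 Y ∧ ¬ ContainsL1 Y ∧
    ∀ f : ℕ → Z, (∀ i, f i ∈ Y) → ¬ EquivL1Basis f

/-! ## Proof -/

section general

variable {V : Type*} [NormedAddCommGroup V] [NormedSpace ℝ V]

/-- a finitely supported combination as a sum over an initial segment -/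
theorem lc_eq_range (v : ℕ → V) (x : ℕ →₀ ℝ) {K : ℕ} (hK : ∀ i ∈ x.support, i < K) :
    Finsupp.linearCombination ℝ v x = ∑ k ∈ range K, x k • v k := by
  rw [Finsupp.linearCombination_apply, Finsupp.sum]
  refine Finset.sum_subset ?_ ?_
  · intro i hi; exact mem_range.2 (hK i hi)
  · intro i _ hi; rw [Finsupp.notMem_support_iff.1 hi, zero_smul]

theorem exists_bound (x : ℕ →₀ ℝ) : ∃ K : ℕ, ∀ i ∈ x.support, i < K :=
  ⟨x.support.sup id + 1, fun _ hi => Nat.lt_succ_of_le (Finset.le_sup (f := id) hi)⟩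

theorem denseRange_lc_closure (v : ℕ → V) :
    DenseRange (Finsupp.linearCombination ℝ (fun k => (⟨v k, (Submodule.span ℝ
      (Set.range v)).le_topologicalClosure (Submodule.subset_span ⟨k, rfl⟩)⟩ :
        (Submodule.span ℝ (Set.range v)).topologicalClosure))) := by
  set Y := (Submodule.span ℝ (Set.range v)).topologicalClosure with hY
  set w : ℕ → Y := fun k => ⟨v k, (Submodule.span ℝ
      (Set.range v)).le_topologicalClosure (Submodule.subset_span ⟨k, rfl⟩)⟩ with hw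
  have h0 : Set.range (Finsupp.linearCombination ℝ w) = (Submodule.span ℝ (Set.range w) : Set Y) := by
    rw [← Finsupp.range_linearCombination]; rfl
  rw [DenseRange, h0]
  intro x
  rw [closure_subtype]
  have h1 : Subtype.val '' (Submodule.span ℝ (Set.range w) : Set Y) =
      (Submodule.span ℝ (Set.range v) : Set V) := by
    have h2 := Submodule.map_span Y.subtype (Set.range w)
    have h3 : Y.subtype '' (Set.range w) = Set.range v := by
      rw [← Set.range_comp]; rfl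
    rw [h3] at h2
    have h4 := congrArg (fun S : Submodule ℝ V => (S : Set V)) h2
    simpa using h4
  rw [h1]
  exact x.2

/-- the unit vectors of ℓ_p -/
noncomputable def uv (p : ENNReal) (k : ℕ) : lp (fun _ : ℕ => ℝ) p := lp.single p k (1:ℝ)

theorem sum_uv (p : ENNReal) (a : ℕ → ℝ) (K : ℕ) :
    ∑ k ∈ range K, a k • uv p k = ∑ k ∈ range K, lp.single p k (a k) := by
  refine Finset.sum_congr rfl (fun k _ => ?_)
  rw [uv, ← lp.single_smul]
  simp

theorem norm_sum_uv_two (a : ℕ → ℝ) (K : ℕ) :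
    ‖∑ k ∈ range K, a k • uv 2 k‖ ^ 2 = ∑ k ∈ range K, a k ^ 2 := by
  have h := lp.norm_sum_single (p := 2) (E := fun _ : ℕ => ℝ) (by simp) a (range K)
  rw [sum_uv]
  simp only [ENNReal.toReal_ofNat, Real.rpow_ofNat, Real.norm_eq_abs, sq_abs] at h
  exact h

theorem norm_sum_uv_one (a : ℕ → ℝ) (K : ℕ) :
    ‖∑ k ∈ range K, a k • uv 1 k‖ = ∑ k ∈ range K, |a k| := by
  have h := lp.norm_sum_single (p := 1) (E := fun _ : ℕ => ℝ) (by simp) a (range K)
  rw [sum_uv]
  simp only [ENNReal.toReal_one, Real.rpow_one, Real.norm_eq_abs] at h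
  exact h

theorem denseRange_uv : DenseRange (Finsupp.linearCombination ℝ (uv 2)) := by
  intro x
  have hs := lp.hasSum_single (p := 2) (E := fun _ : ℕ => ℝ) (by simp) x
  have h2 := hs.tendsto_sum_nat
  refine mem_closure_of_tendsto h2 (Filter.Eventually.of_forall (fun K => ?_))
  rw [← sum_uv]
  refine ⟨∑ k ∈ range K, Finsupp.single k ((x : ∀ _ : ℕ, ℝ) k), ?_⟩
  rw [map_sum]
  refine Finset.sum_congr rfl (fun k _ => ?_)
  rw [Finsupp.linearCombination_single]

/-- a sequence with two sided ℓ₂ estimates spans a closed subspace isomorphic to ℓ₂ -/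
theorem span_l2 [CompleteSpace V] (y : ℕ → V)
    (hU : ∀ (a : ℕ → ℝ) (K : ℕ), ∑ k ∈ range K, a k ^ 2 ≤ 1 → ‖∑ k ∈ range K, a k • y k‖ ≤ 24)
    (hL : ∀ (a : ℕ → ℝ) (K : ℕ), ∑ k ∈ range K, a k ^ 2 = 1/4 →
      1/18 ≤ ‖∑ k ∈ range K, a k • y k‖) :
    Nonempty ((Submodule.span ℝ (Set.range y)).topologicalClosure ≃L[ℝ]
      lp (fun _ : ℕ => ℝ) 2) := by
  set Y := (Submodule.span ℝ (Set.range y)).topologicalClosure with hY
  have : CompleteSpace Y := (Submodule.isClosed_topologicalClosure _).completeSpace_coe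
  set w : ℕ → Y := fun k => ⟨y k, (Submodule.span ℝ
      (Set.range y)).le_topologicalClosure (Submodule.subset_span ⟨k, rfl⟩)⟩ with hw
  have hnorm : ∀ (x : ℕ →₀ ℝ) (K : ℕ), (∀ i ∈ x.support, i < K) →
      ‖Finsupp.linearCombination ℝ w x‖ = ‖∑ k ∈ range K, x k • y k‖ := by
    intro x K hK
    rw [lc_eq_range w x hK]
    have : ((∑ k ∈ range K, x k • w k : Y) : V) = ∑ k ∈ range K, x k • y k := by
      rw [Submodule.coe_sum]; rfl
    rw [← this]; rfl
  refine ⟨(LinearEquiv.refl ℝ (ℕ →₀ ℝ)).extend (Finsupp.linearCombination ℝ w)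
    (Finsupp.linearCombination ℝ (uv 2)) (denseRange_lc_closure y) ⟨9, fun x => ?_⟩
    denseRange_uv ⟨24, fun x => ?_⟩⟩
  · obtain ⟨K, hK⟩ := exists_bound x
    change ‖Finsupp.linearCombination ℝ (uv 2) x‖ ≤ 9 * ‖Finsupp.linearCombination ℝ w x‖
    rw [hnorm x K hK, lc_eq_range _ x hK]
    have h1 := Pool.Agent.Work.N6eec66.lower_scaled y hL x K (le_refl _)
    rw [← norm_sum_uv_two] at h1
    have h2 : ‖∑ k ∈ range K, x k • uv 2 k‖ ^ 2 ≤ (9 * ‖∑ k ∈ range K, x k • y k‖) ^ 2 := by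
      refine h1.trans (le_of_eq ?_)
      ring
    exact le_of_sq_le_sq h2 (by positivity)
  · obtain ⟨K, hK⟩ := exists_bound x
    change ‖Finsupp.linearCombination ℝ w x‖ ≤ 24 * ‖Finsupp.linearCombination ℝ (uv 2) x‖
    rw [hnorm x K hK, lc_eq_range _ x hK]
    refine le_of_forall_pos_le_add (fun ε hε => ?_)
    have h1 := Pool.Agent.Work.N6eec66.upper_scaled y hU x K
      (R := ‖∑ k ∈ range K, x k • uv 2 k‖ + ε / 24) (by positivity) (by
        rw [← norm_sum_uv_two]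
        gcongr
        linarith)
    linarith

/-- a subspace isomorphic to ℓ₁ gives a sequence equivalent to the ℓ₁ basis -/
theorem seq_of_l1 (Y W : Submodule ℝ V) (hWY : W ≤ Y) (e : W ≃L[ℝ] lp (fun _ : ℕ => ℝ) 1) :
    ∃ (f : ℕ → V) (c : ℝ), 0 < c ∧ (∀ i, f i ∈ Y ∧ ‖f i‖ ≤ 1) ∧
      ∀ (n : ℕ) (a : ℕ → ℝ), c * ∑ i ∈ range n, |a i| ≤ ‖∑ i ∈ range n, a i • f i‖ := by
  obtain ⟨A, hA0, hA⟩ : ∃ A : ℝ, 0 < A ∧ ∀ z : lp (fun _ : ℕ => ℝ) 1, ‖e.symm z‖ ≤ A * ‖z‖ := by
    refine ⟨‖(e.symm : lp (fun _ : ℕ => ℝ) 1 →L[ℝ] W)‖ + 1, by positivity, fun z => ?_⟩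
    refine ((e.symm : lp (fun _ : ℕ => ℝ) 1 →L[ℝ] W).le_opNorm z).trans ?_
    gcongr
    linarith
  obtain ⟨B, hB0, hB⟩ : ∃ B : ℝ, 0 < B ∧ ∀ z : W, ‖e z‖ ≤ B * ‖z‖ := by
    refine ⟨‖(e : W →L[ℝ] lp (fun _ : ℕ => ℝ) 1)‖ + 1, by positivity, fun z => ?_⟩
    refine ((e : W →L[ℝ] lp (fun _ : ℕ => ℝ) 1).le_opNorm z).trans ?_
    gcongr
    linarith
  have huv : ∀ i, ‖uv 1 i‖ = 1 := by
    intro i
    rw [uv, lp.norm_single (by simp)]
    simp
  refine ⟨fun i => A⁻¹ • ((e.symm (uv 1 i) : W) : V), A⁻¹ * B⁻¹, by positivity, fun i => ⟨?_, ?_⟩,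
    fun n a => ?_⟩
  · exact Y.smul_mem _ (hWY (e.symm (uv 1 i)).2)
  · rw [norm_smul, Real.norm_eq_abs, abs_of_pos (inv_pos.2 hA0)]
    have h1 := hA (uv 1 i)
    rw [huv i, mul_one] at h1
    have h2 : ‖((e.symm (uv 1 i) : W) : V)‖ ≤ A := h1
    rw [inv_mul_le_iff₀ hA0, mul_one]
    exact h2
  · have h1 : ∑ i ∈ range n, a i • (A⁻¹ • ((e.symm (uv 1 i) : W) : V)) =
        A⁻¹ • (((e.symm (∑ i ∈ range n, a i • uv 1 i) : W)) : V) := by
      rw [map_sum, Submodule.coe_sum, Finset.smul_sum]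
      refine Finset.sum_congr rfl (fun i _ => ?_)
      rw [map_smul, Submodule.coe_smul, smul_comm]
    rw [h1, norm_smul, Real.norm_eq_abs, abs_of_pos (inv_pos.2 hA0), mul_assoc]
    refine mul_le_mul_of_nonneg_left ?_ (inv_pos.2 hA0).le
    rw [inv_mul_le_iff₀ hB0]
    have h2 := hB (e.symm (∑ i ∈ range n, a i • uv 1 i))
    rw [e.apply_symm_apply, norm_sum_uv_one] at h2
    exact h2

end general

/-- the family of the frozen disproof is compact in the Cantor space -/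
theorem compact_of_hered (𝓕 : Set (Finset ℕ)) (h1 : Hereditary 𝓕)
    (h3 : ∀ M : Set ℕ, M.Infinite → ∃ A : Finset ℕ, (↑A : Set ℕ) ⊆ M ∧ A ∉ 𝓕) :
    CompactFamily 𝓕 := by
  have hcl : IsClosed (indicator '' 𝓕) := by
    refine isClosed_of_closure_subset (fun χ hχ => ?_)
    have happ : ∀ n : ℕ, ∃ F ∈ 𝓕, ∀ i < n, χ i = indicator F i := by
      intro n
      have hopen : IsOpen {ψ : ℕ → Bool | ∀ i < n, χ i = ψ i} := by
        have : {ψ : ℕ → Bool | ∀ i < n, χ i = ψ i} = ⋂ i ∈ range n, {ψ : ℕ → Bool | χ i = ψ i} := by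
          ext ψ; simp
        rw [this]
        refine isOpen_biInter_finset (fun i _ => ?_)
        have h : {ψ : ℕ → Bool | χ i = ψ i} = (fun ψ : ℕ → Bool => ψ i) ⁻¹' {χ i} := by
          ext ψ; simp [eq_comm]
        rw [h]
        exact (isOpen_discrete _).preimage (continuous_apply i)
      obtain ⟨ψ, hψ, F, hF, rfl⟩ := mem_closure_iff.1 hχ _ hopen (fun i _ => rfl)
      exact ⟨F, hF, hψ⟩
    have hfin : {i : ℕ | χ i = true}.Finite := by
      by_contra hinf
      obtain ⟨A, hA, hAF⟩ := h3 _ hinf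
      obtain ⟨F, hF, hFi⟩ := happ (A.sup id + 1)
      apply hAF
      refine h1 F hF A (fun i hi => ?_)
      have h4 : i < A.sup id + 1 := Nat.lt_succ_of_le (Finset.le_sup (f := id) hi)
      have h5 := hFi i h4
      have h6 : χ i = true := hA hi
      rw [h6] at h5
      simpa [indicator] using h5.symm
    obtain ⟨F, hF, hFi⟩ := happ (hfin.toFinset.sup id + 1)
    refine ⟨hfin.toFinset, h1 F hF _ (fun i hi => ?_), ?_⟩
    · have h4 : i < hfin.toFinset.sup id + 1 := Nat.lt_succ_of_le (Finset.le_sup (f := id) hi)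
      have h5 := hFi i h4
      have h6 : χ i = true := by simpa using hi
      rw [h6] at h5
      simpa [indicator] using h5.symm
    · funext i
      simp [indicator]
  exact ⟨hcl, hcl.isCompact⟩

open Pool.Agent.Work.N6eec66 in
/-- the concrete model -/
theorem model : IsCombinatorialSpace Fam (XF Fam) (Finsupp.linearCombination ℝ (evec Fam)) where
  complete := (Submodule.isClosed_topologicalClosure _).completeSpace_coe
  denseRange := by
    have h0 : Set.range (Finsupp.linearCombination ℝ (evec Fam)) =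
        (Submodule.span ℝ (Set.range (evec Fam)) : Set (XF Fam)) := by
      rw [← Finsupp.range_linearCombination]; rfl
    rw [DenseRange, h0]
    exact dense_span Fam
  norm_isLUB := by
    intro x
    obtain ⟨K, hK⟩ := exists_bound x
    rw [lc_eq_range _ x hK, norm_formula Fam Fam_empty]
    have hsum : ∀ F : Finset ℕ, ∑ i ∈ F ∩ range K, |x i| = ∑ i ∈ F, |x i| := by
      intro F
      refine Finset.sum_subset Finset.inter_subset_left (fun i hi hi' => ?_)
      have h1 : i ∉ x.support := by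
        intro h
        exact hi' (Finset.mem_inter.2 ⟨hi, mem_range.2 (hK i h)⟩)
      rw [Finsupp.notMem_support_iff.1 h1, abs_zero]
    have himg : ((fun F : Finset ℕ => ∑ i ∈ F ∩ range K, |x i|) '' Fam) =
        {s : ℝ | ∃ F ∈ Fam, s = ∑ i ∈ F, |x i|} := by
      ext s
      constructor
      · rintro ⟨F, hF, rfl⟩
        exact ⟨F, hF, hsum F⟩
      · rintro ⟨F, hF, rfl⟩
        exact ⟨F, hF, hsum F⟩
    rw [← himg]
    refine isLUB_csSup ⟨_, ⟨∅, Fam_empty, rfl⟩⟩ ⟨∑ i ∈ range K, |x i|, ?_⟩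
    rintro _ ⟨F, _, rfl⟩
    exact Finset.sum_le_sum_of_subset_of_nonneg Finset.inter_subset_right
      (fun _ _ _ => abs_nonneg _)

/-- **Negative answer to Q1.** There is a compact family 𝓕 in FHC such that the dual of the
combinatorial Banach space X_𝓕 is not ℓ₁-saturated: X_𝓕^* has a closed infinite-dimensional
subspace `Y` isomorphic to ℓ₂; no subspace of `Y` is isomorphic to ℓ₁, and `Y` contains no
sequence equivalent to the unit vector basis of ℓ₁. The clause after the three properties of 𝓕 says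
that the completion X_𝓕 exists; then `E` runs through all its realisations, in every universe. -/
theorem result : ∃ 𝓕 : Set (Finset ℕ), Hereditary 𝓕 ∧ Covers 𝓕 ∧ CompactFamily 𝓕 ∧
    (∃ (E : Type) (_ : NormedAddCommGroup E) (_ : NormedSpace ℝ E)
      (J : (ℕ →₀ ℝ) →ₗ[ℝ] E), IsCombinatorialSpace 𝓕 E J) ∧
    ∀ (E : Type*) [NormedAddCommGroup E] [NormedSpace ℝ E] (J : (ℕ →₀ ℝ) →ₗ[ℝ] E),
      IsCombinatorialSpace 𝓕 E J →
        ¬ L1Saturated (E →L[ℝ] ℝ) ∧ ∃ Y : Submodule ℝ (E →L[ℝ] ℝ), IsHilbertWithoutL1 Y := by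
  refine ⟨Pool.Agent.Work.N6eec66.Fam, Pool.Agent.Work.N6eec66.Fam_hered,
    Pool.Agent.Work.N6eec66.Fam_single,
    compact_of_hered _ Pool.Agent.Work.N6eec66.Fam_hered Pool.Agent.Work.N6eec66.Fam_compact,
    ⟨Pool.Agent.Work.N6eec66.XF Pool.Agent.Work.N6eec66.Fam, inferInstance, inferInstance,
      _, model⟩, ?_⟩
  intro E _ _ J hJ
  have : CompleteSpace E := hJ.complete
  have : CompleteSpace (Pool.Agent.Work.N6eec66.XF Pool.Agent.Work.N6eec66.Fam) := model.complete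
  let Φ : Pool.Agent.Work.N6eec66.XF Pool.Agent.Work.N6eec66.Fam ≃ₗᵢ[ℝ] E :=
    (LinearEquiv.refl ℝ (ℕ →₀ ℝ)).extendOfIsometry
      (Finsupp.linearCombination ℝ (Pool.Agent.Work.N6eec66.evec Pool.Agent.Work.N6eec66.Fam)) J
      model.denseRange hJ.denseRange (fun x => (hJ.norm_isLUB x).unique (model.norm_isLUB x))
  set y : ℕ → (E →L[ℝ] ℝ) := fun k => (Pool.Agent.Work.N6eec66.yv k).comp
    (Φ.symm.toLinearIsometry.toContinuousLinearMap) with hy
  have hnorm : ∀ (a : ℕ → ℝ) (K : ℕ), ‖∑ k ∈ range K, a k • y k‖ =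
      ‖∑ k ∈ range K, a k • Pool.Agent.Work.N6eec66.yv k‖ := by
    intro a K
    have h1 : ∑ k ∈ range K, a k • y k = (∑ k ∈ range K, a k • Pool.Agent.Work.N6eec66.yv k).comp
        (Φ.symm.toLinearIsometry.toContinuousLinearMap) := by
      rw [ContinuousLinearMap.finsetSum_comp]
      refine Finset.sum_congr rfl (fun k _ => ?_)
      rw [hy, ContinuousLinearMap.smul_comp]
    rw [h1]
    exact ContinuousLinearMap.opNorm_comp_linearIsometryEquiv _ Φ.symm
  have hU : ∀ (a : ℕ → ℝ) (K : ℕ), ∑ k ∈ range K, a k ^ 2 ≤ 1 →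
      ‖∑ k ∈ range K, a k • y k‖ ≤ 24 := fun a K h => by
    rw [hnorm]; exact Pool.Agent.Work.N6eec66.upper_bound a K h
  have hL : ∀ (a : ℕ → ℝ) (K : ℕ), ∑ k ∈ range K, a k ^ 2 = 1/4 →
      1/18 ≤ ‖∑ k ∈ range K, a k • y k‖ := fun a K h => by
    rw [hnorm]; exact Pool.Agent.Work.N6eec66.lower_bound a K h
  have hseq : ∀ f : ℕ → (E →L[ℝ] ℝ),
      (∀ i, f i ∈ (Submodule.span ℝ (Set.range y)).topologicalClosure) → ¬ EquivL1Basis f := by
    rintro f hf ⟨hf1, c, hc, hlow⟩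
    exact Pool.Agent.Work.N6eec66.no_l1 y hU hL f c hc (fun i => ⟨hf i, hf1 i⟩) hlow
  have hno : ¬ ContainsL1 (Submodule.span ℝ (Set.range y)).topologicalClosure := by
    rintro ⟨W, hW, ⟨e⟩⟩
    obtain ⟨f, c, hc, hf, hlow⟩ := seq_of_l1 _ W hW e
    exact hseq f (fun i => (hf i).1) ⟨fun i => (hf i).2, c, hc, hlow⟩
  have hcl := Submodule.isClosed_topologicalClosure (Submodule.span ℝ (Set.range y))
  have hinf := Pool.Agent.Work.N6eec66.infinite_dim y hL
  exact ⟨fun hsat => hno (hsat _ hcl hinf), _, hcl, hinf, span_l2 y hU hL, hno, hseq⟩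

end Pool.Agent.Results.MP_6eec66_an.HilbertSubspace
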